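import Pool.Agent.Helper55.RT.Spec5

/-!
Commuting lifts of disjoint cycles of prime length.
-/

set_option autoImplicit false

namespace Pool.Agent.Helper16.Thin.SZL

/-- the shifts of the rows -/
def shift (m ℓ : ℕ) : Multiplicative (Fin m → ZMod ℓ) →* Equiv.Perm (Fin m × ZMod ℓ) where
  toFun v :=
    { toFun := fun a => (a.1, a.2 + v.toAdd a.1)
      invFun := fun a => (a.1, a.2 - v.toAdd a.1)
      left_inv := by intro a; simp
      right_inv := by intro a; simp }
  map_one' := by
    ext a : 1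
    simp
  map_mul' := by
    intro v w
    ext a : 1
    simp only [toAdd_mul, Pi.add_apply, Equiv.coe_fn_mk, Equiv.Perm.coe_mul, Function.comp_apply,
      Prod.mk.injEq, true_and]
    ring

theorem shift_apply (m ℓ : ℕ) (v : Multiplicative (Fin m → ZMod ℓ)) (a : Fin m × ZMod ℓ) :
    shift m ℓ v a = (a.1, a.2 + v.toAdd a.1) := rfl

theorem shift_injective (m ℓ : ℕ) : Function.Injective (shift m ℓ) := by
  rw [injective_iff_map_eq_one]
  intro v hv
  have h : ∀ i, v.toAdd i = 0 := by
    intro i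
    have h1 := congrArg (fun e : Equiv.Perm (Fin m × ZMod ℓ) => (e (i, 0)).2) hv
    simpa [shift_apply] using h1
  have h2 : v.toAdd = 0 := funext h
  exact Multiplicative.toAdd.injective (by rw [h2]; rfl)

theorem main : Pool.Agent.Helper55.RT.Q_SZL := by
  intro p ℓ hp hl hne G _ _ n φ hφ hker
  classical
  set m := n / ℓ with hm
  have hcard : Fintype.card (Fin m × ZMod ℓ) ≤ Fintype.card (Fin n) := by
    rw [Fintype.card_prod, Fintype.card_fin, Fintype.card_fin, ZMod.card]
    exact Nat.div_mul_le_self n ℓ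
  obtain ⟨E⟩ := Function.Embedding.nonempty_of_card_le hcard
  let Θ : Multiplicative (Fin m → ZMod ℓ) →* Equiv.Perm (Fin n) :=
    (Equiv.Perm.viaEmbeddingHom E).comp (shift m ℓ)
  have hΘ : Function.Injective Θ :=
    (Equiv.Perm.viaEmbeddingHom_injective E).comp (shift_injective m ℓ)
  have hΘE : ∀ v a, Θ v (E a) = E (a.1, a.2 + v.toAdd a.1) := by
    intro v a
    show (Equiv.Perm.viaEmbedding (shift m ℓ v) E) (E a) = _
    rw [Equiv.Perm.viaEmbedding_apply]
    rfl
  -- the exponent of the group of shifts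
  have hexp : ∀ v : Multiplicative (Fin m → ZMod ℓ), v ^ ℓ = 1 := by
    intro v
    apply Multiplicative.toAdd.injective
    rw [toAdd_pow, toAdd_one]
    funext i
    rw [Pi.smul_apply, nsmul_eq_mul, CharP.cast_eq_zero, zero_mul]
    rfl
  have hPV : IsPGroup ℓ Θ.range := by
    intro g
    obtain ⟨g, v, rfl⟩ := g
    refine ⟨1, ?_⟩
    apply Subtype.ext
    rw [pow_one, Subgroup.coe_pow, Subgroup.coe_one, ← map_pow, hexp, map_one]
  -- the Sylow subgroup
  let H : Subgroup G := Θ.range.comap φ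
  let f : H →* Θ.range := φ.subgroupComap Θ.range
  have hf : Function.Surjective f := MonoidHom.subgroupComap_surjective_of_surjective φ _ hφ
  let P : Sylow ℓ H := default
  have htop : (P : Subgroup H).map f = ⊤ := by
    let Q : Sylow ℓ Θ.range := P.mapSurjective hf
    have h1 : (Q : Subgroup Θ.range) = (P : Subgroup H).map f := Sylow.coe_mapSurjective hf P
    have h2 : (⊤ : Subgroup Θ.range) = Q := Q.is_maximal' (by
      intro g
      obtain ⟨k, hk⟩ := hPV g
      exact ⟨k, Subtype.ext (by simpa using hk)⟩) le_top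
    rw [← h1, ← h2]
  have hinj : ∀ g : H, g ∈ (P : Subgroup H) → φ g = 1 → (g : G) = 1 := by
    intro g hg h1
    obtain ⟨k, hk⟩ := P.isPGroup' ⟨g, hg⟩
    obtain ⟨l, hl2⟩ := hker ⟨(g : G), h1⟩
    have hk' : (g : G) ^ ℓ ^ k = 1 := by
      have h2 := congrArg (fun y : (P : Subgroup H) => ((y : H) : G)) hk
      simpa using h2
    have hl' : (g : G) ^ p ^ l = 1 := by
      have h2 := congrArg (fun y : φ.ker => (y : G)) hl2
      simpa using h2
    have hc : Nat.Coprime (ℓ ^ k) (p ^ l) :=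
      Nat.Coprime.pow _ _ ((Nat.coprime_primes hl.out hp.out).2 hne.symm)
    have h3 := Nat.dvd_gcd (orderOf_dvd_of_pow_eq_one hk') (orderOf_dvd_of_pow_eq_one hl')
    rw [hc] at h3
    exact orderOf_eq_one_iff.1 (Nat.dvd_one.1 h3)
  have hex : ∀ i : Fin m, ∃ g : H, g ∈ (P : Subgroup H) ∧
      φ g = Θ (Multiplicative.ofAdd (Pi.single i 1)) := by
    intro i
    have h1 : (⟨Θ (Multiplicative.ofAdd (Pi.single i 1)), ⟨_, rfl⟩⟩ : Θ.range) ∈
        (P : Subgroup H).map f := by
      rw [htop]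
      exact Subgroup.mem_top _
    obtain ⟨g, hg, hg2⟩ := h1
    exact ⟨g, hg, congrArg Subtype.val hg2⟩
  choose c hcP hcΘ using hex
  have hpow : ∀ (i : Fin m) (s : ℕ), (φ (c i) ^ s) (E (i, 0)) = E (i, (s : ZMod ℓ)) := by
    intro i s
    rw [hcΘ, ← map_pow, hΘE]
    simp
  refine ⟨fun i => c i, fun i => E (i, 0), ?_, ?_, ?_, ?_, ?_⟩
  · intro i j
    show (c i : G) * c j = c j * c i
    have h1 : ((c i * c j * (c j * c i)⁻¹ : H) : G) = 1 := by
      apply hinj
      · exact (P : Subgroup H).mul_mem ((P : Subgroup H).mul_mem (hcP i) (hcP j))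
          ((P : Subgroup H).inv_mem ((P : Subgroup H).mul_mem (hcP j) (hcP i)))
      · rw [Subgroup.coe_mul, Subgroup.coe_inv, Subgroup.coe_mul, Subgroup.coe_mul, map_mul,
          map_inv, map_mul, map_mul, hcΘ, hcΘ, ← map_mul Θ, ← map_mul Θ,
          mul_comm (Multiplicative.ofAdd (Pi.single j (1 : ZMod ℓ)) :
            Multiplicative (Fin m → ZMod ℓ)), mul_inv_cancel]
    rw [Subgroup.coe_mul, Subgroup.coe_inv, Subgroup.coe_mul, Subgroup.coe_mul] at h1
    exact mul_inv_eq_one.1 h1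
  · intro i
    show (c i : G) ^ ℓ = 1
    have h1 : ((c i ^ ℓ : H) : G) = 1 := by
      apply hinj
      · exact (P : Subgroup H).pow_mem (hcP i) _
      · rw [Subgroup.coe_pow, map_pow, hcΘ, ← map_pow, hexp, map_one]
    rwa [Subgroup.coe_pow] at h1
  · intro i
    have h1 : {y | ∃ s : ℕ, (φ (c i) ^ s) (E (i, 0)) = y} =
        Set.range (fun a : ZMod ℓ => E (i, a)) := by
      ext y
      constructor
      · rintro ⟨s, rfl⟩
        exact ⟨s, (hpow i s).symm⟩
      · rintro ⟨a, rfl⟩
        refine ⟨a.val, ?_⟩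
        rw [hpow, ZMod.natCast_zmod_val]
    have h2 : Function.Injective (fun a : ZMod ℓ => E (i, a)) := by
      intro a b hab
      have h3 := E.injective hab
      exact (Prod.mk.inj h3).2
    show {y | ∃ s : ℕ, (φ (c i) ^ s) (E (i, 0)) = y}.ncard = ℓ
    rw [h1, ← Set.image_univ, Set.ncard_image_of_injective _ h2, Set.ncard_univ, Nat.card_zmod]
  · intro i j hij s
    show φ (c j) ((φ (c i) ^ s) (E (i, 0))) = (φ (c i) ^ s) (E (i, 0))
    rw [hpow, hcΘ, hΘE]
    simp [Pi.single_eq_of_ne hij]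
  · intro i j hij s
    show (φ (c i) ^ s) (E (i, 0)) ≠ E (j, 0)
    rw [hpow]
    intro h
    exact hij (Prod.mk.inj (E.injective h)).1

end Pool.Agent.Helper16.Thin.SZL
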